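import Pool.Agent.R235.CO.Smooth

/-!
# The core of a domain depends on the smoothness

There is a domain `Ω ⊂ ℂ³` such that the origin does not belong to the `C⁰`-core of `Ω`, but it
belongs to the `C^s`-core of `Ω` for every `s ∈ {1, 2, …, ∞}`.

Sketch.  `Ω` is a polydisc together with countably many pairs of tubes around complex lines.  A
bounded plurisubharmonic function is constant along the complex lines, hence takes the same value
at the two feet `p j` and `p j + t j * d j` of the `j`-th pair, where the pairs `(p j, d j)` are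
dense in (annulus) × {1, i} and `t j → 0`.  For a `C¹` function this forces the gradient of the
restriction to the disc `{(z, 0, 0)}` to vanish on the annulus, so that the restriction is constant
near the origin by the maximum principle.  On the other hand a continuous subharmonic function
`u` on `|z| < 3` is constructed, which is locally constant near every `p j` (with plateaus of
positive size) and equal to `|z|²` plus a subharmonic function on `|z| < 1`; it gives a continuous
bounded plurisubharmonic function on `Ω` which is strictly plurisubharmonic at the origin.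
-/

set_option autoImplicit false

open Metric Set Filter Topology

namespace Pool.Agent.Results.MP_63d28d_an.CoreSmoothness

open Pool.Agent R235.CO

theorem main : ∃ Ω : Set (EuclideanSpace ℂ (Fin 3)), IsOpen Ω ∧ IsConnected Ω ∧
    (0 : EuclideanSpace ℂ (Fin 3)) ∈ Ω ∧ (0 : EuclideanSpace ℂ (Fin 3)) ∉ core 0 Ω ∧
    ∀ s : ℕ∞, 1 ≤ s → (0 : EuclideanSpace ℂ (Fin 3)) ∈ core s Ω := by
  classical
  set q : ℕ → ℂ := TopologicalSpace.denseSeq ℂ with hq
  set P : ℕ → ℂ := fun k => if 1 < ‖q k‖ ∧ ‖q k‖ < 2 then q k else ((3 / 2 : ℝ) : ℂ) with hP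
  set p : ℕ → ℂ := fun j => P (Nat.unpair j).1 with hp
  set d : ℕ → ℂ := fun j => if Even (Nat.unpair j).2 then 1 else Complex.I with hd
  have hPn : ∀ k, 1 < ‖P k‖ ∧ ‖P k‖ < 2 := by
    intro k
    by_cases h : 1 < ‖q k‖ ∧ ‖q k‖ < 2
    · simp only [hP, if_pos h]; exact h
    · simp only [hP, if_neg h, Complex.norm_real]
      norm_num
  obtain ⟨u, ρ, C, h1, h2, h3, h4⟩ := exists_u p (fun j => hPn _)
  have H : Data p d ρ C u := by
    refine ⟨?_, fun j => (h4 j).1, fun j => (h4 j).2.1, fun j => (h4 j).2.2, h1, h2, h3⟩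
    intro j
    by_cases h : Even (Nat.unpair j).2
    · simp only [hd, if_pos h, norm_one]
    · simp only [hd, if_neg h, Complex.norm_I]
  have hdense : ∀ z : ℂ, 1 < ‖z‖ → ‖z‖ < 2 → ∀ ε : ℝ, 0 < ε →
      ∀ e : ℂ, (e = 1 ∨ e = Complex.I) →
      ∃ j, (1 / 2 : ℝ) ^ j < ε ∧ d j = e ∧ ‖p j - z‖ < ε := by
    intro z hz1 hz2 ε hε e he
    have hopen : IsOpen (ball z ε ∩ {y : ℂ | 1 < ‖y‖ ∧ ‖y‖ < 2}) :=
      isOpen_ball.inter ((isOpen_lt continuous_const continuous_norm).inter
        (isOpen_lt continuous_norm continuous_const))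
    obtain ⟨k, hk1, hk2⟩ := (TopologicalSpace.denseRange_denseSeq ℂ).exists_mem_open hopen
      ⟨z, mem_ball_self hε, hz1, hz2⟩
    have hPk : P k = q k := by
      have : 1 < ‖q k‖ ∧ ‖q k‖ < 2 := hk2
      simp only [hP, if_pos this]
    obtain ⟨N, hN⟩ := exists_pow_lt_of_lt_one hε (show (1 / 2 : ℝ) < 1 by norm_num)
    have key : ∀ i, N ≤ i → (1 / 2 : ℝ) ^ (Nat.pair k i) < ε ∧ ‖p (Nat.pair k i) - z‖ < ε := by
      intro i hi
      refine ⟨lt_of_le_of_lt (pow_le_pow_of_le_one (by norm_num) (by norm_num)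
        (hi.trans (Nat.right_le_pair k i))) hN, ?_⟩
      simp only [hp, Nat.unpair_pair, hPk]
      rw [← dist_eq_norm]
      exact hk1
    rcases he with rfl | rfl
    · refine ⟨Nat.pair k (2 * N), (key _ (by omega)).1, ?_, (key _ (by omega)).2⟩
      simp [hd, Nat.unpair_pair]
    · refine ⟨Nat.pair k (2 * N + 1), (key _ (by omega)).1, ?_, (key _ (by omega)).2⟩
      simp [hd, Nat.unpair_pair]
  refine ⟨Om p d ρ, Om_open p d ρ, Om_conn H, ?_, H.not_mem_core,
    fun s hs => H.mem_core hdense hs⟩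
  exact (H.mem_core hdense (le_refl 1)).1

/-- The `C^s`-cores of a domain depend on `s`: there is a domain `Ω ⊂ ℂ³` whose `C⁰`-core does not
contain the origin although its `C^s`-core contains the origin for every `s ∈ {1, 2, …, ∞}`; in
particular it is not true that all the `C^s`-cores of every domain coincide. -/
theorem result :
    (∃ Ω : Set (EuclideanSpace ℂ (Fin 3)), IsOpen Ω ∧ IsConnected Ω ∧
      (0 : EuclideanSpace ℂ (Fin 3)) ∈ Ω ∧ (0 : EuclideanSpace ℂ (Fin 3)) ∉ core 0 Ω ∧
      ∀ s : ℕ∞, 1 ≤ s → (0 : EuclideanSpace ℂ (Fin 3)) ∈ core s Ω) ∧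
    ¬ ∀ (n : ℕ), 1 ≤ n → ∀ Ω : Set (EuclideanSpace ℂ (Fin n)), IsOpen Ω → IsConnected Ω →
      ∀ s₁ s₂ : ℕ∞, core s₁ Ω = core s₂ Ω := by
  refine ⟨main, ?_⟩
  intro h
  obtain ⟨Ω, h1, h2, h3, h4, h5⟩ := main
  apply h4
  rw [h 3 (by norm_num) Ω h1 h2 0 1]
  exact h5 1 (le_refl 1)

end Pool.Agent.Results.MP_63d28d_an.CoreSmoothness
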